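import Pool.Agent.X185.RD.Groups

/-!
The Cayley graph of `BS(1,m)` with respect to `{a, a⁻¹, t, t⁻¹}` has unbounded retreat depth,
for every `m ≥ 2`.
-/

set_option autoImplicit false

namespace Pool.Agent.Results.MP_af8618_al.UnboundedRetreatDepth

open Pool.Agent.X185.RD

/-- For every `m ≥ 2` the solvable Baumslag-Solitar group `BS(1,m) = ⟨a, t | t a t⁻¹ = a ^ m⟩` has
unbounded retreat depth with respect to the generating set `{a, a⁻¹, t, t⁻¹}`: for every `D` there
is an element `g` with `rd(g) > D`. -/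
theorem result (m : ℕ) (hm : 2 ≤ m) :
    ¬ BoundedRetreatDepth ({bsa m, (bsa m)⁻¹, bst m, (bst m)⁻¹} : Set (BS m)) := by
  have : NeZero m := ⟨by omega⟩
  exact modelBS.unbounded hm

end Pool.Agent.Results.MP_af8618_al.UnboundedRetreatDepth
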